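import Pool.Agent.Helper76.PB.GoalsF
import Pool.Agent.Helper42.PP.NZY
import Pool.Agent.Helper90.RP.DUAL

/-!
# Project B (MP_fc6b1e_nt): packet X_H90, Hilbert 90 for the units outside a set of primes
-/

set_option autoImplicit false

namespace Pool.Agent.Helper16.PB

open NumberField Module IsDedekindDomain Pool.Agent.Helper51.RP Pool.Agent.Helper76.PB
open Pool.Agent.Helper40.RS (bel conj_of_bel)
open Pool.Agent.Helper42.RD (exists_bel ordv_mul ordv_inv ordv_eq_zero_iff)
open Pool.Agent.Helper40.RD (bel_of_above)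
open Pool.Agent.Helper42.PP (exists_pull ordv_of_val act nrm inc)

section

variable {F E : Type} [Field F] [NumberField F] [Field E] [NumberField E] [Algebra F E]

theorem mem_upZ (Z : Set (HeightOneSpectrum (𝓞 F))) (w : HeightOneSpectrum (𝓞 E)) :
    w ∈ upZ E Z ↔ bel F w ∈ Z := by
  constructor
  · rintro ⟨v, hv, h⟩
    rw [bel_of_above h]
    exact hv
  · intro h
    exact ⟨bel F w, h, rfl⟩

/-- Hilbert 90 for a group generated by one element. -/
theorem hil90 [IsGalois F E] (σ : E ≃ₐ[F] E) (hσ : ∀ g : E ≃ₐ[F] E, ∃ n : ℕ, g = σ ^ n) (x : E)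
    (hx : Algebra.norm F x = 1) : ∃ y : Eˣ, (y : E) / σ y = x := by
  have hz : ∀ g : E ≃ₐ[F] E, g ∈ Subgroup.zpowers σ := by
    intro g
    obtain ⟨n, hn⟩ := hσ g
    exact ⟨n, by rw [hn]; exact zpow_natCast σ n⟩
  have : IsCyclic (E ≃ₐ[F] E) := ⟨⟨σ, hz⟩⟩
  exact groupCohomology.exists_div_of_norm_eq_one hz hx

/-- The valuation of `t` is constant along the powers of `σ` if it is invariant under `σ`. -/
theorem const_pow' [IsGalois F E] {Z : Set (HeightOneSpectrum (𝓞 F))} {σ : E ≃ₐ[F] E} {t : E}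
    (hs : ∀ w ∉ upZ E Z, ordv w (σ t) = ordv w t) (n : ℕ) :
    ∀ w ∉ upZ E Z, ordv w ((σ ^ n) t) = ordv w t := by
  induction n with
  | zero => intro w _; rfl
  | succ n ih =>
    intro w hw
    obtain ⟨w', h1, h2⟩ := exists_pull (K := F) w σ
    have hw' : w' ∉ upZ E Z := by
      rw [mem_upZ] at hw ⊢
      rw [h2]
      exact hw
    have e1 : (σ ^ (n + 1)) t = σ ((σ ^ n) t) := by
      rw [pow_succ']
      rfl
    rw [e1, ordv_of_val h1, ih w' hw', ← ordv_of_val h1, hs w hw]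

end

/-- **X_H90.** -/
theorem x_h90 : X_H90 := by
  classical
  intro F E _ _ _ _ _ _ Z hU hP σ hσ u hu hn
  have hnu : Algebra.norm F ((u⁻¹ : Eˣ) : E) = 1 := by
    have h1 : Algebra.norm F (u : E) = 1 := congrArg Units.val hn
    have h2 := map_mul (Algebra.norm F) (u : E) ((u⁻¹ : Eˣ) : E)
    rw [← Units.val_mul, mul_inv_cancel, Units.val_one, map_one, h1, one_mul] at h2
    exact h2.symm
  obtain ⟨t, ht⟩ := hil90 σ hσ _ hnu
  have hst : σ (t : E) ≠ 0 := by
    rw [map_ne_zero_iff _ σ.injective]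
    exact t.ne_zero
  have hst' : σ (t : E) = (u : E) * t := by
    rw [Units.val_inv_eq_inv_val, div_eq_iff hst, eq_comm, inv_mul_eq_iff_eq_mul₀ u.ne_zero] at ht
    exact ht
  have hsig : ∀ w ∉ upZ E Z, ordv w (σ (t : E)) = ordv w (t : E) := by
    intro w hw
    have h1 : w.valuation E (u : E) = 1 := hu w hw
    unfold ordv
    rw [hst', map_mul, h1, one_mul]
  have hconst : ∀ w w' : HeightOneSpectrum (𝓞 E), w ∉ upZ E Z → bel F w = bel F w' →
      ordv w (t : E) = ordv w' (t : E) := by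
    intro w w' hw hb
    obtain ⟨g, hg⟩ := conj_of_bel (K := F) w w' hb
    obtain ⟨n, hn⟩ := hσ g
    rw [← ordv_of_val hg, hn, const_pow' hsig n w hw]
  choose w₀ hw₀ using fun W : HeightOneSpectrum (𝓞 F) => exists_bel (M₁ := E) W
  have hfin : (Function.support fun W : HeightOneSpectrum (𝓞 F) =>
      if W ∈ Z then (0 : ℤ) else ordv (w₀ W) (t : E)).Finite := by
    refine ((Pool.Agent.Helper90.RP.Dual.finite_ordv (t : E) t.ne_zero).image (bel F)).subset ?_
    intro W hW
    refine ⟨w₀ W, ?_, hw₀ W⟩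
    intro h0
    apply hW
    simp only
    rw [h0]
    simp
  obtain ⟨y, hy⟩ := hP (Finsupp.ofSupportFinite _ hfin)
  have hyE : ∀ w ∉ upZ E Z, ordv w (algebraMap F E (y : F)) = ordv w (t : E) := by
    intro w hw
    have hW : bel F w ∉ Z := by
      rw [mem_upZ] at hw
      exact hw
    have hyW := hy _ hW
    rw [Finsupp.ofSupportFinite_coe] at hyW
    simp only [if_neg hW] at hyW
    rw [hU (bel F w) hW w rfl, hyW]
    exact (hconst w _ hw (hw₀ _).symm).symm
  have hne : (algebraMap F E (y : F)) ≠ 0 := (map_ne_zero _).2 y.ne_zero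
  have e3 : ((inc F E y : Eˣ) : E) = algebraMap F E (y : F) := rfl
  refine ⟨t * (inc F E y)⁻¹, ?_, ?_⟩
  · intro w hw
    rw [← ordv_eq_zero_iff _ (t * (inc F E y)⁻¹).ne_zero]
    push_cast
    rw [e3, ordv_mul _ t.ne_zero (inv_ne_zero hne), ordv_inv _ hne, hyE w hw]
    ring
  · apply Units.ext
    have e4 : ((act σ (t * (inc F E y)⁻¹) : Eˣ) : E) = σ (((t * (inc F E y)⁻¹ : Eˣ) : E)) := rfl
    rw [Units.val_div_eq_div_val, e4, Units.val_mul, Units.val_inv_eq_inv_val, e3, map_mul,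
      map_inv₀, σ.commutes, mul_div_mul_right _ _ (inv_ne_zero hne), hst',
      mul_div_cancel_right₀ _ t.ne_zero]

end Pool.Agent.Helper16.PB
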